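import Pool.Agent.P.MP_74db7f_al.F.A4
import Pool.Agent.P.MP_74db7f_al.F.Fin1

open Pool.Agent.P.MP_74db7f_al

universe u v w

theorem Pool.Agent.Results.MP_74db7f_al.FiniteRank.result
    {B : Type w} [Fintype B] [DecidableEq B] {W : Type v} [Group W] {M : CoxeterMatrix B}
    (cs : CoxeterSystem M W) (hM : AffType M) (L : W → ℕ) (hL : PosWeight cs L)
    {H : Type u} [Ring H] [Algebra (LaurentPolynomial ℤ) H]
    (Tb : Module.Basis W (LaurentPolynomial ℤ) H) (hT : IsHecke cs L Tb)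
    (bar : H →+* H) (hB : IsBar Tb bar)
    (Cb : Module.Basis W (LaurentPolynomial ℤ) H) (hC : IsKL cs Tb bar Cb) :
    ∃ (P : Set W → MatRep.{u, v} H) (a : Set W → ℕ),
      (∀ Γ, IsCell Cb Γ → Finite (P Γ).ι ∧ Balanced Cb Γ (P Γ) (a Γ)) ∧
      ∀ Γ Γ', IsCell Cb Γ → IsCell Cb Γ' → (∃ x ∈ Γ', ∃ y ∈ Γ, LeLR Cb x y) → a Γ ≤ a Γ' := by
  classical
  obtain ⟨D⟩ := exists_AD cs hM
  obtain ⟨N, hN⟩ := T_bounded (L := L) (by
    obtain ⟨A, d, -, h1, h2, h3, h4, h5, -⟩ := hM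
    exact ⟨A, d, h1, h2, h3, h4, h5⟩) hT
  let C : HC cs H := { D with L := L, hL := hL, Tb := Tb, hT := hT, Nb := N, hN := hN }
  obtain ⟨a, ha⟩ := HC.exists_cell_rep.{u, v} C (bar := bar) (Cb := Cb) hB hC
  have key : ∀ Γ : Set W, ∃ P : MatRep.{u, v} H,
      IsCell Cb Γ → Finite P.ι ∧ Balanced Cb Γ P (if 1 ∈ Γ then 0 else a) := by
    intro Γ
    by_cases hΓ : IsCell Cb Γ
    · by_cases h : 1 ∈ Γ
      · obtain ⟨P, hP⟩ := HC.exists_one_rep.{u, v} C (bar := bar) (Cb := Cb) hB hC hΓ h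
        exact ⟨P, fun _ => by rwa [if_pos h]⟩
      · obtain ⟨P, hP⟩ := ha Γ hΓ h
        exact ⟨P, fun _ => by rwa [if_neg h]⟩
    · obtain ⟨P, -⟩ := HC.exists_one_rep.{u, v} C (bar := bar) (Cb := Cb) hB hC ⟨1, rfl⟩
        ⟨.refl, .refl⟩
      exact ⟨P, fun h => absurd h hΓ⟩
  choose P hP using key
  refine ⟨P, fun Γ => if 1 ∈ Γ then 0 else a, hP, ?_⟩
  rintro Γ _ - ⟨z, rfl⟩ ⟨x, hx, y, hy, hxy⟩
  by_cases h : 1 ∈ Γ
  · simp [h]
  · beta_reduce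
    rw [if_neg h, if_neg]
    intro h1
    exact h (eq_one_of_le hL hT hB hC ((h1.1.trans hx.2).trans hxy) ▸ hy)
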